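import Pool.Agent.MP_c73ff6_gt.H73.Core
import Pool.Agent.MP_c73ff6_gt.H73.Hahn
import Pool.Agent.MP_c73ff6_gt.H73.Trans
import Pool.Agent.MP_c73ff6_gt.H73.Emb
import Pool.Agent.MP_c73ff6_gt.H73.Loc
import Pool.Agent.MP_c73ff6_gt.H73.Supp
import Pool.Agent.MP_c73ff6_gt.H73.Face
import Pool.Agent.MP_c73ff6_gt.H73.Rev
import Pool.Agent.MP_c73ff6_gt.H73.Near
import Pool.Agent.MP_c73ff6_gt.H73.Ker
import Pool.Agent.MP_c73ff6_gt.H73.Pde
import Pool.Agent.MP_c73ff6_gt.H73.Chart
import Pool.Agent.MP_c73ff6_gt.H73.Inc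
import Pool.Agent.MP_c73ff6_gt.H73.Eq

/-! Ilmanen's no-cylinder question for real-algebraic self-shrinkers in `ℝ³`. -/

namespace Pool.Agent.Results.MP_c73ff6_gt.AlgebraicNoCylinder

open Pool.Agent.MP_c73ff6_gt.H73

/-- A connected immersed self-shrinker in `ℝ³` that is algebraic on some open piece and has a
cylindrical end in the direction `v` lies on the round cylinder with axis `v`, and is that
cylinder if its image is closed. -/
theorem result (M : Type) [TopologicalSpace M] [PreconnectedSpace M] [ChartedSpace E2 M]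
    (Ψ : M → E3)
    (hshr : ∀ m : M, ShrinkerOn (Ψ ∘ (chartAt E2 m).symm) (chartAt E2 m).target)
    (P : MvPolynomial (Fin 3) ℝ) (hP : P ≠ 0) (W : Set M) (hW : IsOpen W) (hne : W.Nonempty)
    (halg : ∀ m ∈ W, MvPolynomial.eval (fun i => Ψ m i) P = 0)
    (v : E3) (hv : ‖v‖ = 1) (hend : (endPoints Ψ v).Infinite) :
    Set.range Ψ ⊆ cylinder v ∧ (IsClosed (Set.range Ψ) → Set.range Ψ = cylinder v) := by
  have hcore : StmtCORE :=
    core hahn (odeT (closed1 hahn) trans_ dalg emb loc) supp face (near rev_ ind) (ker ind) pde_ ind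
  have h := inc hcore chart rev_ M Ψ hshr P W hP hW hne halg v hv hend
  haveI : Nonempty M := ⟨hne.some⟩
  exact ⟨h, eq_ M Ψ hshr v hv h⟩

end Pool.Agent.Results.MP_c73ff6_gt.AlgebraicNoCylinder
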